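import Pool.Agent.H608.Ge.PiE
import Pool.Agent.H608.Ge.Omit
import Pool.Agent.H608.Me.SerMea
import Pool.Agent.H608.Me.Near
import Mathlib

/-!
# Near coincidences of powers, for `π` and `e` with very few omitted terms

Leibniz's series is `π = ∑ (4 / (4 k + 1) - 4 / (4 k + 3))`, `k ≥ 0`, and `e = 2 ∏ b_(k + 1) / b_k`, `k ≥ 1`, with
`b_k = (1 + 1 / k) ^ k`. For a set `E` of positive integers let `π_E` and `e_E` be the series and the product without
the terms and factors with `k ∈ E`. For every `ε > 0` there are sets `E` with at most `ε log log K` elements up to `K`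
such that the asymptotic formula of the problem holds for `π_E` and `e_E`:
`#{(n, m) : |π_E ^ n - e_E ^ m| ≤ x} ∼ (log x) ^ 2 / (log π_E log e_E)`. The same is true for `π_E` and `e`, for `π`
and `e_E`, and the conjecture that the formula holds if and only if the numbers are multiplicatively independent is
true for all pairs of numbers greater than one in the multiplicative group generated by `π_E`, `e_E` and a given countable set,
one of which really contains `π_E` or `e_E`.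
-/

set_option autoImplicit false

namespace Pool.Agent.Results.MP_606be1_nt.NearCoincidences

open Finset Filter Topology Metric
open Pool.Agent.H608.Ge Pool.Agent.H608.Me

/-- `A` has at least `H ^ δ` elements in `[H, 2 H)`, for some `δ > 0` and all large `H` -/
def PolyDense (A : Set ℕ) : Prop :=
  ∃ δ : ℝ, 0 < δ ∧ ∀ᶠ H : ℕ in atTop, (H : ℝ) ^ δ ≤ (({k : ℕ | k ∈ A ∧ H ≤ k ∧ k < 2 * H}.ncard : ℕ) : ℝ)

open Classical in
/-- Leibniz's series for `π` without the pairs of terms with numbers in `E` -/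
noncomputable def piE (E : Set ℕ) : ℝ :=
  ∑' k : ℕ, if k ∈ E then 0 else 4 / (4 * (k : ℝ) + 1) - 4 / (4 * (k : ℝ) + 3)

/-- the sequence with limit `e` -/
noncomputable def bern (k : ℕ) : ℝ := (1 + 1 / (k : ℝ)) ^ k

open Classical in
/-- the product for `e` without the factors in `E` -/
noncomputable def eE (E : Set ℕ) : ℝ := 2 * ∏' n : ℕ, if n + 1 ∈ E then 1 else bern (n + 2) / bern (n + 1)

/-- the pairs `(n, m)` with `|a ^ n - b ^ m| ≤ x` -/
def coincidences (a b x : ℝ) : Set (ℕ × ℕ) := {p | |a ^ p.1 - b ^ p.2| ≤ x}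

/-- the asymptotic formula: the number of near coincidences is finite, and asymptotically `(log x) ^ 2 / (log a log b)` -/
def Formula (a b : ℝ) : Prop :=
  (∀ x : ℝ, (coincidences a b x).Finite) ∧
    Asymptotics.IsEquivalent atTop (fun x : ℝ => (((coincidences a b x).ncard : ℕ) : ℝ))
      (fun x : ℝ => Real.log x ^ 2 / (Real.log a * Real.log b))

lemma piE_empty : piE ∅ = Real.pi := by
  unfold piE
  rw [← hasSum_up2_zero.tsum_eq]
  apply tsum_congr
  intro k
  rw [if_neg (Set.notMem_empty _)]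
  rfl

open Classical in
lemma piE_eq {E : Set ℕ} (h0 : 0 ∉ E) : piE E = 8 / 3 + ∑' n : ℕ, if n + 1 ∈ E then 0 else up2 (n + 1) := by
  have h1 : Summable fun k : ℕ => if k ∈ E then 0 else 4 / (4 * (k : ℝ) + 1) - 4 / (4 * (k : ℝ) + 3) := by
    refine (hasSum_up2_zero.summable.indicator {k | k ∉ E}).congr fun k => ?_
    simp only [Set.indicator, Set.mem_ofPred_eq]
    split_ifs <;> rfl
  unfold piE
  rw [h1.tsum_eq_zero_add, if_neg h0]
  congr 1
  · norm_num

lemma bern_pos (k : ℕ) : 0 < bern k := by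
  unfold bern
  positivity

lemma log_bern (n : ℕ) : Real.log (bern (n + 2) / bern (n + 1)) = ue (n + 1) := by
  rw [Real.log_div (bern_pos _).ne' (bern_pos _).ne']
  unfold bern ue
  rw [Real.log_pow, Real.log_pow]
  push_cast
  have e1 : (n : ℝ) + 1 + 1 = n + 2 := by ring
  rw [e1]

open Classical in
lemma eE_eq (E : Set ℕ) : eE E = 2 * Real.exp (∑' n : ℕ, if n + 1 ∈ E then 0 else ue (n + 1)) := by
  have h1 : Summable fun n : ℕ => if n + 1 ∈ E then 0 else ue (n + 1) := by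
    refine (hasSum_ue.summable.indicator {n | n + 1 ∉ E}).congr fun n => ?_
    simp only [Set.indicator, Set.mem_ofPred_eq]
    split_ifs <;> rfl
  have h2 : ∀ n : ℕ, Real.log (if n + 1 ∈ E then 1 else bern (n + 2) / bern (n + 1)) =
      if n + 1 ∈ E then 0 else ue (n + 1) := by
    intro n
    split_ifs
    · exact Real.log_one
    · exact log_bern n
  unfold eE
  rw [← Real.rexp_tsum_eq_tprod (f := fun n : ℕ => if n + 1 ∈ E then 1 else bern (n + 2) / bern (n + 1))]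
  · simp only [h2]
  · intro n
    split_ifs
    · exact one_pos
    · exact div_pos (bern_pos _) (bern_pos _)
  · simp only [h2]
    exact h1

lemma eE_empty : eE ∅ = Real.exp 1 := by
  rw [eE_eq]
  simp only [Set.mem_empty_iff_false, if_false]
  rw [hasSum_ue.tsum_eq, Real.exp_sub, Real.exp_log (by norm_num)]
  ring

/-- the point of the two sums -/
noncomputable def x₀ : Fin 2 → ℝ := fun j => (serPE j).x

lemma x₀0 : x₀ 0 = Real.pi - 8 / 3 := rfl

lemma x₀1 : x₀ 1 = 1 - Real.log 2 := rfl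

/-- the logarithm of `π ^ i e ^ j exp σ` as a function of the two sums -/
noncomputable def F (i j : ℤ) (σ : ℝ) (w : Fin 2 → ℂ) : ℂ :=
  (i : ℂ) * Complex.log (8 / 3 + w 0) + (j : ℂ) * (w 1 + (Real.log 2 : ℂ)) + (σ : ℂ)

lemma F_real (i j : ℤ) (σ : ℝ) {z : Fin 2 → ℝ} (hz : 0 ≤ 8 / 3 + z 0) :
    F i j σ (rp z) = ((i * Real.log (8 / 3 + z 0) + j * (z 1 + Real.log 2) + σ : ℝ) : ℂ) := by
  unfold F
  have h1 : (8 / 3 : ℂ) + rp z 0 = ((8 / 3 + z 0 : ℝ) : ℂ) := by
    show (8 / 3 : ℂ) + ((z 0 : ℝ) : ℂ) = ((8 / 3 + z 0 : ℝ) : ℂ)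
    push_cast
    rfl
  have h2 : rp z 1 = ((z 1 : ℝ) : ℂ) := rfl
  rw [h1, h2, ← Complex.ofReal_log hz]
  push_cast
  rfl

lemma F_an (i j : ℤ) (σ : ℝ) {r : ℝ} (hr : r ≤ 1) : AnalyticOnNhd ℂ (F i j σ) (ball (rp x₀) r) := by
  have hp : ∀ (l : Fin 2) (s : Set (Fin 2 → ℂ)), AnalyticOnNhd ℂ (fun w : Fin 2 → ℂ => w l) s := fun l s =>
    (ContinuousLinearMap.proj (R := ℂ) (φ := fun _ : Fin 2 => ℂ) l).analyticOnNhd _
  unfold F
  apply AnalyticOnNhd.add _ analyticOnNhd_const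
  apply AnalyticOnNhd.add
  · apply analyticOnNhd_const.mul
    apply AnalyticOnNhd.clog (analyticOnNhd_const.add (hp 0 _))
    intro w hw
    left
    have h1 : ‖w 0 - rp x₀ 0‖ < r := by
      have h2 := norm_le_pi_norm (w - rp x₀) 0
      rw [mem_ball_iff_norm] at hw
      exact h2.trans_lt hw
    have h3 := (Complex.abs_re_le_norm (w 0 - rp x₀ 0)).trans_lt h1
    have h4 : (w 0 - rp x₀ 0).re = (w 0).re - (Real.pi - 8 / 3) := by
      show (w 0 - ((x₀ 0 : ℝ) : ℂ)).re = _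
      rw [Complex.sub_re, Complex.ofReal_re, x₀0]
    rw [h4, abs_lt] at h3
    have h5 : (8 / 3 + w 0 : ℂ).re = 8 / 3 + (w 0).re := by
      rw [Complex.add_re]
      norm_num
    show 0 < (8 / 3 + w 0 : ℂ).re
    rw [h5]
    have := Real.pi_gt_three
    linarith [h3.1]
  · exact analyticOnNhd_const.mul ((hp 1 _).add analyticOnNhd_const)

/-- a complex relation between the two functions gives a real one between the exponents -/
lemma relation {i j k l : ℤ} {σ τ r : ℝ} (hr : 0 < r) (hr1 : r ≤ 1) {v : Fin 2 → ℂ} (hv : v ≠ 0)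
    (h : ∀ w ∈ ball (rp x₀) r, v 0 * F i j σ w + v 1 * F k l τ w = 0) :
    ∃ u : Fin 2 → ℝ, u ≠ 0 ∧ u 0 * i + u 1 * k = 0 ∧ u 0 * j + u 1 * l = 0 ∧ u 0 * σ + u 1 * τ = 0 := by
  have hpi := Real.pi_gt_three
  -- the relation at real points
  have h1 : ∀ z : Fin 2 → ℝ, |z 0 - x₀ 0| < r → |z 1 - x₀ 1| < r →
      v 0 * ((i * Real.log (8 / 3 + z 0) + j * (z 1 + Real.log 2) + σ : ℝ) : ℂ) +
      v 1 * ((k * Real.log (8 / 3 + z 0) + l * (z 1 + Real.log 2) + τ : ℝ) : ℂ) = 0 := by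
    intro z h0 h1
    have hz : 0 ≤ 8 / 3 + z 0 := by
      rw [x₀0] at h0
      have := (abs_lt.1 h0).1
      linarith
    have h2 := h (rp z) (by
      rw [mem_ball_iff_norm, pi_norm_lt_iff hr]
      intro m
      show ‖((z m : ℝ) : ℂ) - ((x₀ m : ℝ) : ℂ)‖ < r
      rw [← Complex.ofReal_sub, Complex.norm_real]
      fin_cases m
      · exact h0
      · exact h1)
    rwa [F_real _ _ _ hz, F_real _ _ _ hz] at h2
  have hA := h1 x₀ (by rw [sub_self, abs_zero]; exact hr) (by rw [sub_self, abs_zero]; exact hr)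
  have hB := h1 ![x₀ 0 + r / 2, x₀ 1] (by
    show |x₀ 0 + r / 2 - x₀ 0| < r
    rw [add_sub_cancel_left, abs_of_pos (by linarith)]
    linarith) (by
    show |x₀ 1 - x₀ 1| < r
    rw [sub_self, abs_zero]
    exact hr)
  have hC := h1 ![x₀ 0, x₀ 1 + r / 2] (by
    show |x₀ 0 - x₀ 0| < r
    rw [sub_self, abs_zero]
    exact hr) (by
    show |x₀ 1 + r / 2 - x₀ 1| < r
    rw [add_sub_cancel_left, abs_of_pos (by linarith)]
    linarith)
  simp only [Matrix.cons_val_zero, Matrix.cons_val_one] at hB hC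
  have e0 : 8 / 3 + x₀ 0 = Real.pi := by rw [x₀0]; ring
  have e1 : 8 / 3 + (x₀ 0 + r / 2) = Real.pi + r / 2 := by rw [x₀0]; ring
  have e2 : x₀ 1 + Real.log 2 = 1 := by rw [x₀1]; ring
  have e3 : x₀ 1 + r / 2 + Real.log 2 = 1 + r / 2 := by rw [x₀1]; ring
  rw [e0, e2] at hA
  rw [e1, e2] at hB
  rw [e0, e3] at hC
  obtain ⟨L, hL⟩ : ∃ L, L = Real.log Real.pi := ⟨_, rfl⟩
  obtain ⟨L', hL'⟩ : ∃ L', L' = Real.log (Real.pi + r / 2) := ⟨_, rfl⟩
  have hLL : L' - L ≠ 0 := by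
    have : L < L' := by
      rw [hL, hL']
      exact Real.log_lt_log (by linarith) (by linarith)
    linarith
  rw [← hL] at hA hC
  rw [← hL'] at hB
  push_cast at hA hB hC
  have hLL' : ((L' : ℂ) - L) ≠ 0 := by exact_mod_cast hLL
  have hr' : ((r : ℂ) / 2) ≠ 0 := by
    have : (r : ℂ) ≠ 0 := by exact_mod_cast hr.ne'
    exact div_ne_zero this two_ne_zero
  have k1 : v 0 * i + v 1 * k = 0 := by
    apply mul_right_cancel₀ hLL'
    linear_combination hB - hA
  have k2 : v 0 * j + v 1 * l = 0 := by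
    apply mul_right_cancel₀ hr'
    linear_combination hC - hA
  have k3 : v 0 * σ + v 1 * τ = 0 := by
    linear_combination hA - (L : ℂ) * k1 - k2
  have re := fun {a b : ℝ} (h : v 0 * (a : ℂ) + v 1 * (b : ℂ) = 0) => congrArg Complex.re h
  have im := fun {a b : ℝ} (h : v 0 * (a : ℂ) + v 1 * (b : ℂ) = 0) => congrArg Complex.im h
  have k1' : v 0 * ((i : ℝ) : ℂ) + v 1 * ((k : ℝ) : ℂ) = 0 := by exact_mod_cast k1
  have k2' : v 0 * ((j : ℝ) : ℂ) + v 1 * ((l : ℝ) : ℂ) = 0 := by exact_mod_cast k2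
  have r1 := re k1'
  have r2 := re k2'
  have r3 := re k3
  have i1 := im k1'
  have i2 := im k2'
  have i3 := im k3
  simp only [Complex.add_re, Complex.add_im, Complex.re_mul_ofReal, Complex.im_mul_ofReal, Complex.zero_re,
    Complex.zero_im] at r1 r2 r3 i1 i2 i3
  by_cases hre : (fun m => (v m).re) = 0
  · refine ⟨fun m => (v m).im, ?_, i1, i2, i3⟩
    intro him
    apply hv
    funext m
    exact Complex.ext (congrFun hre m) (congrFun him m)
  · exact ⟨fun m => (v m).re, hre, r1, r2, r3⟩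

lemma pow_of_log {a b : ℝ} (ha : 1 < a) (hb : 1 < b) {i k : ℤ} (h : (k : ℝ) * Real.log a = i * Real.log b) :
    a ^ k.natAbs = b ^ i.natAbs := by
  have hα := Real.log_pos ha
  have hβ := Real.log_pos hb
  have h1 : (k.natAbs : ℝ) * Real.log a = i.natAbs * Real.log b := by
    have h2 := congrArg (fun x : ℝ => |x|) h
    simp only [abs_mul, abs_of_pos hα, abs_of_pos hβ] at h2
    rw [Nat.cast_natAbs, Nat.cast_natAbs, Int.cast_abs, Int.cast_abs]
    exact h2
  have h3 : Real.log (a ^ k.natAbs) = Real.log (b ^ i.natAbs) := by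
    rw [Real.log_pow, Real.log_pow]
    exact h1
  exact Real.log_injOn_pos (Set.mem_Ioi.2 (pow_pos (by linarith) _)) (Set.mem_Ioi.2 (pow_pos (by linarith) _)) h3

/-- multiplicatively independent numbers give linearly independent exponents -/
lemma no_relation {i j k l : ℤ} {σ τ a b p q : ℝ} (ha : 1 < a) (hb : 1 < b)
    (hla : Real.log a = i * p + j * q + σ) (hlb : Real.log b = k * p + l * q + τ)
    (hab : ∀ n m : ℕ, a ^ n = b ^ m → n = 0 ∧ m = 0) (hne : ¬ (i = 0 ∧ j = 0 ∧ k = 0 ∧ l = 0))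
    {u : Fin 2 → ℝ} (hu : u ≠ 0) (h1 : u 0 * i + u 1 * k = 0) (h2 : u 0 * j + u 1 * l = 0)
    (h3 : u 0 * σ + u 1 * τ = 0) : False := by
  have hα := Real.log_pos ha
  have hβ := Real.log_pos hb
  have h4 : u 0 * Real.log a + u 1 * Real.log b = 0 := by
    rw [hla, hlb]
    linear_combination p * h1 + q * h2 + h3
  have h5 : u 0 ≠ 0 := by
    intro h0
    rw [h0, zero_mul, zero_add] at h4
    apply hu
    funext m
    fin_cases m
    · exact h0
    · exact (mul_eq_zero.1 h4).resolve_right hβ.ne'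
  have key : ∀ i k : ℤ, u 0 * i + u 1 * k = 0 → i = 0 ∧ k = 0 := by
    intro i k h
    have h6 : (k : ℝ) * Real.log a = i * Real.log b := by
      apply mul_left_cancel₀ h5
      linear_combination (k : ℝ) * h4 - Real.log b * h
    have h7 := hab _ _ (pow_of_log ha hb h6)
    exact ⟨Int.natAbs_eq_zero.1 h7.2, Int.natAbs_eq_zero.1 h7.1⟩
  obtain ⟨e1, e2⟩ := key i k h1
  obtain ⟨e3, e4⟩ := key j l h2
  exact hne ⟨e1, e3, e2, e4⟩

/-- dependent numbers have infinitely many coincidences -/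
lemma indep_of_finite {a b : ℝ} (h : (coincidences a b 0).Finite) (n m : ℕ)
    (hnm : a ^ n = b ^ m) : n = 0 ∧ m = 0 := by
  by_contra hne
  have hinj : Function.Injective fun k : ℕ => ((k * n, k * m) : ℕ × ℕ) := by
    intro k k' hk
    simp only [Prod.mk.injEq] at hk
    by_cases hn : n = 0
    · have hm : m ≠ 0 := fun hm => hne ⟨hn, hm⟩
      exact Nat.eq_of_mul_eq_mul_right (Nat.pos_of_ne_zero hm) hk.2
    · exact Nat.eq_of_mul_eq_mul_right (Nat.pos_of_ne_zero hn) hk.1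
  apply Set.infinite_of_injective_forall_mem hinj _ h
  intro k
  show |a ^ (k * n) - b ^ (k * m)| ≤ 0
  rw [mul_comm k n, mul_comm k m, pow_mul, pow_mul, hnm, sub_self, abs_zero]

open Classical in
theorem result :
    -- without omissions the numbers are `π`, `e`
    (piE ∅ = Real.pi ∧ eE ∅ = Real.exp 1) ∧
    ∀ A : Set ℕ, PolyDense A → ∀ ε r : ℝ, 0 < ε → 0 < r → ∀ (M : ℕ) (S : Set ℝ), S.Countable → (∀ s ∈ S, 0 < s) →
      ∃ E : Set ℕ, E ⊆ A ∧ (∀ k ∈ E, 1 ≤ k ∧ M ≤ k) ∧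
        (∀ K : ℕ, 16 ≤ K → (({k : ℕ | k ∈ E ∧ k ≤ K}.ncard : ℕ) : ℝ) ≤ ε * Real.log (Real.log K)) ∧
        |piE E - Real.pi| < r ∧ |eE E - Real.exp 1| < r ∧
        -- the formula for `π_E`, `e_E`, and also for `π_E`, `e`, and for `π`, `e_E`
        Formula (piE E) (eE E) ∧ Formula (piE E) (Real.exp 1) ∧ Formula Real.pi (eE E) ∧
        -- all pairs of numbers in the group generated by `π_E`, `e_E` and `S`
        ∀ (i j k l : ℤ), ¬ (i = 0 ∧ j = 0 ∧ k = 0 ∧ l = 0) → ∀ s ∈ S, ∀ t ∈ S, ∀ a b : ℝ,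
          a = piE E ^ i * eE E ^ j * s → b = piE E ^ k * eE E ^ l * t → 1 < a → 1 < b →
          ((Formula a b ↔ ∀ n m : ℕ, a ^ n = b ^ m → n = 0 ∧ m = 0) ∧
          (Formula a b → ∃ c : ℝ, 0 < c ∧ ∀ H : ℕ, 2 ≤ H → ∀ n m : ℕ, ¬ (n = 0 ∧ m = 0) → n ≤ H → m ≤ H →
            (H : ℝ) ^ (-c) ≤ |n * Real.log a - m * Real.log b|)) := by
  refine ⟨⟨piE_empty, eE_empty⟩, fun A hA ε r hε hr M S hS hS0 => ?_⟩
  have hpi := Real.pi_gt_three
  -- the set of all numbers
  obtain ⟨T, hT⟩ : ∃ T : Set ℝ, T = S ∪ {1, Real.pi, Real.exp 1} := ⟨_, rfl⟩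
  have hTc : T.Countable := by
    rw [hT]
    exact hS.union (Set.toFinite _).countable
  have hT0 : ∀ s ∈ T, 0 < s := by
    rw [hT]
    rintro s (hs | hs | hs | hs)
    · exact hS0 s hs
    · rw [hs]; exact one_pos
    · rw [hs]; exact Real.pi_pos
    · rw [Set.mem_singleton_iff.1 hs]; exact Real.exp_pos 1
  have h1T : (1 : ℝ) ∈ T := by
    rw [hT]
    right
    left
    rfl
  -- the radius
  obtain ⟨ρ, hρ⟩ : ∃ ρ, ρ = min 1 (r / 8) := ⟨_, rfl⟩
  have hρ0 : 0 < ρ := by rw [hρ]; positivity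
  have hρ1 : ρ ≤ 1 := by rw [hρ]; exact min_le_left _ _
  have hρr : ρ ≤ r / 8 := by rw [hρ]; exact min_le_right _ _
  -- the systems
  have := hTc.to_subtype
  let ι := {p : (ℤ × ℤ × T) × (ℤ × ℤ × T) // ∀ v : Fin 2 → ℂ, v ≠ 0 → ∃ w ∈ ball (rp x₀) ρ,
    ∑ m, v m * (![F p.1.1 p.1.2.1 (Real.log p.1.2.2), F p.2.1 p.2.2.1 (Real.log p.2.2.2)] : Fin 2 → (Fin 2 → ℂ) → ℂ) m w ≠ 0}
  have good : ∀ (i j k l : ℤ) (s t : T),
      (∀ u : Fin 2 → ℝ, u ≠ 0 → u 0 * i + u 1 * k = 0 → u 0 * j + u 1 * l = 0 →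
        u 0 * Real.log s + u 1 * Real.log t = 0 → False) →
      ∀ v : Fin 2 → ℂ, v ≠ 0 → ∃ w ∈ ball (rp x₀) ρ,
        ∑ m, v m * (![F i j (Real.log s), F k l (Real.log t)] : Fin 2 → (Fin 2 → ℂ) → ℂ) m w ≠ 0 := by
    intro i j k l s t h v hv
    by_contra hcon
    push Not at hcon
    obtain ⟨u, hu, h1, h2, h3⟩ := relation (i := i) (j := j) (k := k) (l := l) (σ := Real.log s) (τ := Real.log t)
      hρ0 hρ1 hv (fun w hw => by
        have := hcon w hw
        rw [Fin.sum_univ_two] at this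
        exact this)
    exact h u hu h1 h2 h3
  have good0 : ∀ u : Fin 2 → ℝ, u ≠ 0 → u 0 * ((1 : ℤ) : ℝ) + u 1 * ((0 : ℤ) : ℝ) = 0 →
      u 0 * ((0 : ℤ) : ℝ) + u 1 * ((1 : ℤ) : ℝ) = 0 →
      u 0 * Real.log ((⟨1, h1T⟩ : T) : ℝ) + u 1 * Real.log ((⟨1, h1T⟩ : T) : ℝ) = 0 → False := by
    intro u hu h1 h2 _
    apply hu
    funext m
    fin_cases m
    · simpa using h1
    · simpa using h2
  let p₁ : ι := ⟨((1, 0, ⟨1, h1T⟩), (0, 1, ⟨1, h1T⟩)), good 1 0 0 1 ⟨1, h1T⟩ ⟨1, h1T⟩ good0⟩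
  have : Nonempty ι := ⟨p₁⟩
  obtain ⟨C, hC⟩ : ∃ C, C = cB serPE := ⟨_, rfl⟩
  obtain ⟨M', hM'⟩ : ∃ M' : ℕ, M' = max (max M 1) ⌈8 * C / ρ⌉₊ := ⟨_, rfl⟩
  obtain ⟨E, _, hE2, hE3, hE4⟩ := meaCount (ι := ι) (fun p => mkSys linInd_PE ρ hρ0
    (![F p.1.1.1 p.1.1.2.1 (Real.log p.1.1.2.2), F p.1.2.1 p.1.2.2.1 (Real.log p.1.2.2.2)] : Fin 2 → (Fin 2 → ℂ) → ℂ)
    (by
      intro m
      fin_cases m
      · exact F_an _ _ _ hρ1
      · exact F_an _ _ _ hρ1) p.2) hA hε (M := M') (by rw [hM']; omega) (by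
      intro p
      show 4 * cB serPE ≤ ρ / 2 * (M' : ℝ)
      rw [← hC]
      have h1 : 8 * C / ρ ≤ M' := by
        refine (Nat.le_ceil _).trans ?_
        rw [hM']
        exact_mod_cast le_max_right _ _
      rw [div_le_iff₀ hρ0] at h1
      linarith)
  have hE4' : ∀ p : ι, ∃ z : Fin 2 → ℝ,
      (∀ j : Fin 2, Tendsto (fun N : ℕ => (serPE j).x - ∑ k ∈ (range N).filter (· ∈ E), (serPE j).τ k) atTop (𝓝 (z j))) ∧
      (∀ j : Fin 2, |z j - x₀ j| < ρ) ∧ ∃ c : ℝ, 0 < c ∧ ∀ h : ℕ, 2 ≤ h → ∀ v : Fin 2 → ℤ, v ≠ 0 → (∀ j, |v j| ≤ h) →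
        (h : ℝ) ^ (-c) ≤ ‖∑ m, (v m : ℂ) * (![F p.1.1.1 p.1.1.2.1 (Real.log p.1.1.2.2),
          F p.1.2.1 p.1.2.2.1 (Real.log p.1.2.2.2)] : Fin 2 → (Fin 2 → ℂ) → ℂ) m (rp z)‖ := hE4
  obtain ⟨z, hz, hzr, _⟩ := hE4' p₁
  have hE1 : ∀ k ∈ E, 1 ≤ k ∧ M ≤ k := by
    intro k hk
    have := (hE2 k hk).2
    omega
  have h0E : 0 ∉ E := fun h => by
    have := (hE1 0 h).1
    omega
  have e0 : z 0 = ∑' n : ℕ, if n + 1 ∈ E then 0 else up2 (n + 1) :=
    tendsto_nhds_unique (hz 0) (tendsto_omit hasSum_up2 h0E)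
  have e1 : z 1 = ∑' n : ℕ, if n + 1 ∈ E then 0 else ue (n + 1) :=
    tendsto_nhds_unique (hz 1) (tendsto_omit hasSum_ue h0E)
  have e2 : piE E = 8 / 3 + z 0 := by rw [piE_eq h0E, e0]
  have e3 : eE E = 2 * Real.exp (z 1) := by rw [eE_eq, e1]
  have hz0 : |z 0 - x₀ 0| < ρ := hzr 0
  have hz1 : |z 1 - x₀ 1| < ρ := hzr 1
  have hp1 : 1 < piE E := by
    rw [x₀0] at hz0
    have := (abs_lt.1 hz0).1
    rw [e2]
    linarith
  have hl1 : Real.log (eE E) = z 1 + Real.log 2 := by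
    rw [e3, Real.log_mul two_ne_zero (Real.exp_pos _).ne', Real.log_exp, add_comm]
  have he0 : 0 < eE E := by rw [e3]; positivity
  have he1 : 1 < eE E := by
    rw [x₀1] at hz1
    have h1 := (abs_lt.1 hz1).1
    have h2 : 0 < Real.log (eE E) := by
      rw [hl1]
      linarith
    by_contra hcon
    push Not at hcon
    have := Real.log_nonpos he0.le hcon
    linarith
  have hcl1 : |piE E - Real.pi| < r := by
    have h1 : piE E - Real.pi = z 0 - x₀ 0 := by rw [e2, x₀0]; ring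
    rw [h1]
    linarith
  have hcl2 : |eE E - Real.exp 1| < r := by
    have h1 : eE E - Real.exp 1 = Real.exp 1 * (Real.exp (z 1 - x₀ 1) - 1) := by
      have h2 : eE E = Real.exp (1 + (z 1 - x₀ 1)) := by
        rw [← Real.exp_log he0, hl1, x₀1]
        congr 1
        ring
      rw [h2, Real.exp_add]
      ring
    rw [h1, abs_mul, abs_of_pos (Real.exp_pos 1)]
    have h3 := Real.abs_exp_sub_one_le (hz1.le.trans hρ1)
    have h4 := Real.exp_one_lt_d9
    have h5 : Real.exp 1 * |Real.exp (z 1 - x₀ 1) - 1| ≤ Real.exp 1 * (2 * |z 1 - x₀ 1|) :=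
      mul_le_mul_of_nonneg_left h3 (Real.exp_pos 1).le
    have h6 : Real.exp 1 * (2 * |z 1 - x₀ 1|) ≤ 3 * (2 * (r / 8)) := by
      apply mul_le_mul _ _ (by positivity) (by norm_num)
      · linarith
      · linarith
    linarith
  -- the measures
  have meas : ∀ (i j k l : ℤ) (s t : T),
      (∀ u : Fin 2 → ℝ, u ≠ 0 → u 0 * i + u 1 * k = 0 → u 0 * j + u 1 * l = 0 →
        u 0 * Real.log s + u 1 * Real.log t = 0 → False) → ∀ a b : ℝ,
      a = piE E ^ i * eE E ^ j * s → b = piE E ^ k * eE E ^ l * t → 1 < a → 1 < b →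
      Formula a b ∧ ∃ c : ℝ, 0 < c ∧ ∀ H : ℕ, 2 ≤ H → ∀ n m : ℕ, ¬ (n = 0 ∧ m = 0) → n ≤ H → m ≤ H →
            (H : ℝ) ^ (-c) ≤ |n * Real.log a - m * Real.log b| := by
    intro i j k l s t hg a b hae hbe ha hb
    obtain ⟨z', hz', _, c, hc, hcb⟩ := hE4' ⟨((i, j, s), (k, l, t)), good i j k l s t hg⟩
    have hzz : z' = z := by
      funext m
      exact tendsto_nhds_unique (hz' m) (hz m)
    subst hzz
    have hlog : ∀ (i j : ℤ) (s : T), Real.log (piE E ^ i * eE E ^ j * s) =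
        i * Real.log (8 / 3 + z' 0) + j * (z' 1 + Real.log 2) + Real.log s := by
      intro i j s
      have h1 := hT0 s s.2
      rw [Real.log_mul (by positivity) h1.ne', Real.log_mul (by positivity) (by positivity), Real.log_zpow,
        Real.log_zpow, hl1, ← e2]
    have hm : ∀ H : ℕ, 2 ≤ H → ∀ n m : ℕ, ¬ (n = 0 ∧ m = 0) → n ≤ H → m ≤ H →
            (H : ℝ) ^ (-c) ≤ |n * Real.log a - m * Real.log b| := by
      intro H hH n m hnm hn hm
      have h1 := hcb H hH ![(n : ℤ), -(m : ℤ)] (by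
        intro h0
        apply hnm
        have h2 := congrFun h0 0
        have h3 := congrFun h0 1
        simp only [Matrix.cons_val_zero, Matrix.cons_val_one, Pi.zero_apply] at h2 h3
        constructor
        · exact_mod_cast h2
        · have := neg_eq_zero.1 h3
          exact_mod_cast this) (by
        intro q
        fin_cases q
        · show |(n : ℤ)| ≤ (H : ℤ)
          rw [abs_of_nonneg (by positivity)]
          exact_mod_cast hn
        · show |-(m : ℤ)| ≤ (H : ℤ)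
          rw [abs_neg, abs_of_nonneg (by positivity)]
          exact_mod_cast hm)
      have hz00 : 0 ≤ 8 / 3 + z' 0 := by
        rw [← e2]
        linarith
      have h2 : ∑ q : Fin 2, ((![(n : ℤ), -(m : ℤ)] q : ℤ) : ℂ) *
          (![F i j (Real.log s), F k l (Real.log t)] : Fin 2 → (Fin 2 → ℂ) → ℂ) q (rp z') =
          ((n * Real.log a - m * Real.log b : ℝ) : ℂ) := by
        rw [Fin.sum_univ_two]
        simp only [Matrix.cons_val_zero, Matrix.cons_val_one]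
        rw [F_real _ _ _ hz00, F_real _ _ _ hz00, hae, hbe, hlog, hlog]
        push_cast
        ring
      have h3 : (H : ℝ) ^ (-c) ≤ ‖∑ q : Fin 2, ((![(n : ℤ), -(m : ℤ)] q : ℤ) : ℂ) *
          (![F i j (Real.log s), F k l (Real.log t)] : Fin 2 → (Fin 2 → ℂ) → ℂ) q (rp z')‖ := h1
      rw [h2, Complex.norm_real, Real.norm_eq_abs] at h3
      exact h3
    exact ⟨near ha hb hc fun H hH n m hnm => hm H hH n m (by tauto), c, hc, hm⟩
  have hpiT : Real.pi ∈ T := by
    rw [hT]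
    right
    right
    left
    rfl
  have heT : Real.exp 1 ∈ T := by
    rw [hT]
    right
    right
    right
    rfl
  have hpi1 : 1 < Real.pi := by linarith
  have hex1 : 1 < Real.exp 1 := by
    have := Real.exp_one_gt_d9
    linarith
  refine ⟨E, fun k hk => (hE2 k hk).1, hE1, hE3, hcl1, hcl2, ?_, ?_, ?_, ?_⟩
  · exact (meas 1 0 0 1 ⟨1, h1T⟩ ⟨1, h1T⟩ good0 _ _ (by simp) (by simp) hp1 he1).1
  · refine (meas 1 0 0 0 ⟨1, h1T⟩ ⟨Real.exp 1, heT⟩ ?_ _ _ (by simp) (by simp) hp1 hex1).1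
    intro u hu h1 _ h3
    apply hu
    have h4 : u 0 = 0 := by simpa using h1
    funext m
    fin_cases m
    · exact h4
    · simpa [h4] using h3
  · refine (meas 0 0 0 1 ⟨Real.pi, hpiT⟩ ⟨1, h1T⟩ ?_ _ _ (by simp) (by simp) hpi1 he1).1
    intro u hu _ h2 h3
    apply hu
    have h4 : u 1 = 0 := by simpa using h2
    funext m
    fin_cases m
    · rw [h4, zero_mul, add_zero] at h3
      exact (mul_eq_zero.1 h3).resolve_right (Real.log_pos hpi1).ne'
    · exact h4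
  · intro i j k l hne s hs t ht a b hae hbe ha hb
    have hsT : s ∈ T := by rw [hT]; exact Or.inl hs
    have htT : t ∈ T := by rw [hT]; exact Or.inl ht
    have hs0 := hT0 s hsT
    have ht0 := hT0 t htT
    have key : (∀ n m : ℕ, a ^ n = b ^ m → n = 0 ∧ m = 0) → Formula a b ∧ ∃ c : ℝ, 0 < c ∧ ∀ H : ℕ, 2 ≤ H →
        ∀ n m : ℕ, ¬ (n = 0 ∧ m = 0) → n ≤ H → m ≤ H → (H : ℝ) ^ (-c) ≤ |n * Real.log a - m * Real.log b| := by
      intro hab
      refine meas i j k l ⟨s, hsT⟩ ⟨t, htT⟩ ?_ a b hae hbe ha hb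
      intro u hu h1 h2 h3
      refine no_relation (p := Real.log (piE E)) (q := Real.log (eE E)) ha hb ?_ ?_ hab hne hu h1 h2 h3
      · rw [hae, Real.log_mul (by positivity) hs0.ne', Real.log_mul (by positivity) (by positivity), Real.log_zpow,
          Real.log_zpow]
      · rw [hbe, Real.log_mul (by positivity) ht0.ne', Real.log_mul (by positivity) (by positivity), Real.log_zpow,
          Real.log_zpow]
    exact ⟨⟨fun h => indep_of_finite (h.1 0), fun h => (key h).1⟩, fun h => (key (indep_of_finite (h.1 0))).2⟩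

end Pool.Agent.Results.MP_606be1_nt.NearCoincidences
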